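import Pool.Agent.Helper99.BQ.Basic
import Pool.Agent.Helper7.BQ.H5

/-! MP_986e36_gt, Q2, block S3: the derivative of the projection to the sphere. -/

open scoped Manifold ContDiff Quaternion ENNReal Topology
open Bundle Set Metric

noncomputable section

namespace Helper99.BQ

namespace S3

theorem contDiff_cis : ContDiff ℝ ∞ cis := by
  have h : cis = fun s => (Real.cos s) • (1 : ℍ[ℝ]) + (Real.sin s) • qi := funext cis_eq
  rw [h]
  exact (Real.contDiff_cos.smul contDiff_const).add (Real.contDiff_sin.smul contDiff_const)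

theorem contDiffAt_proj (a b : ℝ) {h : ℍ[ℝ]} (hh : h ≠ 0) : ContDiffAt ℝ ∞ (proj a b) h := by
  have hn : ContDiffAt ℝ ∞ (fun x : ℍ[ℝ] => ‖x‖) h := contDiffAt_norm ℝ hh
  have hn0 : ‖h‖ ≠ 0 := norm_ne_zero_iff.mpr hh
  have hl : ContDiffAt ℝ ∞ (fun x : ℍ[ℝ] => Real.log ‖x‖) h := hn.log hn0
  have hi : ContDiffAt ℝ ∞ (fun x : ℍ[ℝ] => ‖x‖⁻¹ • x) h := (hn.inv hn0).smul contDiffAt_id
  have h1 : ContDiffAt ℝ ∞ (fun x : ℍ[ℝ] => cis (-(a * Real.log ‖x‖))) h :=
    contDiff_cis.contDiffAt.comp h (contDiffAt_const.mul hl).neg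
  have h2 : ContDiffAt ℝ ∞ (fun x : ℍ[ℝ] => cis (-(-(b * Real.log ‖x‖)))) h :=
    contDiff_cis.contDiffAt.comp h (contDiffAt_const.mul hl).neg.neg
  exact (h1.mul hi).mul h2

theorem hasDerivAt_tw' {a b : ℝ} {τ : ℝ → ℝ} {y : ℝ → ℍ[ℝ]} {τ' : ℝ} {y' : ℍ[ℝ]} {t : ℝ}
    (hτ : HasDerivAt τ τ' t) (hy : HasDerivAt y y' t) :
    HasDerivAt (fun t => tw (-(a * τ t)) (-(b * τ t)) (y t))
      (tw (-(a * τ t)) (-(b * τ t)) (y' - τ' • killing a b (y t))) t := by
  have ha : HasDerivAt (fun t => -(a * τ t)) (-(a * τ')) t := (hτ.const_mul a).neg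
  have hb : HasDerivAt (fun t => -(-(b * τ t))) (-(-(b * τ'))) t := (hτ.const_mul b).neg.neg
  have h1 : HasDerivAt (fun t => cis (-(a * τ t))) ((-(a * τ')) • (qi * cis (-(a * τ t)))) t :=
    HasDerivAt.scomp (g₁ := cis) (h := fun t => -(a * τ t)) t (hasDerivAt_cis _) ha
  have h2 : HasDerivAt (fun t => cis (-(-(b * τ t))))
      ((-(-(b * τ'))) • (qi * cis (-(-(b * τ t))))) t :=
    HasDerivAt.scomp (g₁ := cis) (h := fun t => -(-(b * τ t))) t (hasDerivAt_cis _) hb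
  have h3 : HasDerivAt (fun t => cis (-(a * τ t)) * y t * cis (-(-(b * τ t))))
      (((-(a * τ')) • (qi * cis (-(a * τ t))) * y t + cis (-(a * τ t)) * y') *
        cis (-(-(b * τ t))) + cis (-(a * τ t)) * y t *
        (-(-(b * τ'))) • (qi * cis (-(-(b * τ t))))) t := (h1.mul hy).mul h2
  refine h3.congr_deriv ?_
  rw [tw_sub, tw_smul, tw_killing, killing, tw, tw]
  set A := cis (-(a * τ t))
  set B := cis (-(-(b * τ t)))
  have hB : qi * B = B * qi := (cis_mul_qi _).symm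
  rw [hB]
  simp only [add_mul, smul_mul_assoc, mul_smul_comm, smul_sub, smul_smul, mul_assoc]
  module

theorem deriv_proj (a b : ℝ) {h : ℍ[ℝ]} (hh : h ≠ 0) (u : ℍ[ℝ]) :
    fderiv ℝ (proj a b) h (h * u) =
      tw (-(a * Real.log ‖h‖)) (-(b * Real.log ‖h‖))
        ((‖h‖⁻¹ • h) * u - u.re • (‖h‖⁻¹ • h) - u.re • killing a b (‖h‖⁻¹ • h)) := by
  have hn0 : ‖h‖ ≠ 0 := norm_ne_zero_iff.mpr hh
  have hd : DifferentiableAt ℝ (proj a b) h :=
    (contDiffAt_proj a b hh).differentiableAt (by simp)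
  -- the curve
  have hc : HasDerivAt (fun t : ℝ => h + t • (h * u)) (h * u) 0 := by
    have := ((hasDerivAt_id (0 : ℝ)).smul_const (h * u)).const_add h
    simpa using this
  have hc0 : h + (0 : ℝ) • (h * u) = h := by simp
  have hf : HasDerivAt (fun t : ℝ => proj a b (h + t • (h * u)))
      (fderiv ℝ (proj a b) h (h * u)) 0 := by
    have h1 : HasFDerivAt (proj a b) (fderiv ℝ (proj a b) h) (h + (0 : ℝ) • (h * u)) := by
      rw [hc0]; exact hd.hasFDerivAt
    exact h1.comp_hasDerivAt (0 : ℝ) hc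
  -- the norm along the curve
  have hin : inner ℝ h (h * u) = ‖h‖ ^ 2 * u.re := by
    have h1 : ‖h‖ ^ 2 = Quaternion.normSq h := by
      rw [Quaternion.normSq_eq_norm_mul_self, sq]
    rw [h1, Quaternion.normSq_def', inner_def']
    simp
    ring
  have hsq : HasDerivAt (fun t : ℝ => ‖h + t • (h * u)‖ ^ 2) (2 * (‖h‖ ^ 2 * u.re)) 0 := by
    have := hc.norm_sq
    simpa [hin] using this
  have hnm : HasDerivAt (fun t : ℝ => ‖h + t • (h * u)‖) (‖h‖ * u.re) 0 := by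
    have h1 := hsq.sqrt (by simp [hn0])
    have h2 : (fun t : ℝ => ‖h + t • (h * u)‖) =
        fun t : ℝ => Real.sqrt (‖h + t • (h * u)‖ ^ 2) := by
      funext t; rw [Real.sqrt_sq (norm_nonneg _)]
    rw [h2]
    refine h1.congr_deriv ?_
    rw [hc0, Real.sqrt_sq (norm_nonneg _)]
    field_simp
  have hlog : HasDerivAt (fun t : ℝ => Real.log ‖h + t • (h * u)‖) u.re 0 := by
    have h1 := hnm.log (by simp [hn0])
    refine h1.congr_deriv ?_
    rw [hc0]; field_simp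
  have hinv : HasDerivAt (fun t : ℝ => ‖h + t • (h * u)‖⁻¹) (-(‖h‖⁻¹ * u.re)) 0 := by
    have h1 := hnm.inv (by simp [hn0])
    refine h1.congr_deriv ?_
    rw [hc0]; field_simp
  have hy : HasDerivAt (fun t : ℝ => ‖h + t • (h * u)‖⁻¹ • (h + t • (h * u)))
      ((‖h‖⁻¹ • h) * u - u.re • (‖h‖⁻¹ • h)) 0 := by
    have h1 := hinv.smul hc
    refine h1.congr_deriv ?_
    rw [hc0, smul_mul_assoc]
    module
  have h4 := hasDerivAt_tw' (a := a) (b := b) hlog hy
  have h5 : HasDerivAt (fun t : ℝ => proj a b (h + t • (h * u))) _ 0 := h4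
  rw [hf.unique h5, hc0]

end S3

/-- S3 (import Basic, Helper7.BQ.H5): the projection to the sphere -/
theorem proj_deriv (a b : ℝ) {h : ℍ[ℝ]} (hh : h ≠ 0) :
    ContDiffAt ℝ ∞ (proj a b) h ∧
    ∃ u₀ : ℍ[ℝ], u₀ ≠ 0 ∧ ∀ u : ℍ[ℝ],
      ‖fderiv ℝ (proj a b) h (h * u)‖ ^ 2 -
        inner ℝ (fderiv ℝ (proj a b) h (h * u)) (killing a b (proj a b h)) ^ 2 /
          (1 + ‖killing a b (proj a b h)‖ ^ 2) =
      ‖u‖ ^ 2 - inner ℝ u u₀ ^ 2 / ‖u₀‖ ^ 2 := by
  refine ⟨S3.contDiffAt_proj a b hh, ?_⟩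
  have hn0 : ‖h‖ ≠ 0 := norm_ne_zero_iff.mpr hh
  set e : ℍ[ℝ] := ‖h‖⁻¹ • h with he
  have hen : ‖e‖ = 1 := by
    rw [he, norm_smul, norm_inv, norm_norm, inv_mul_cancel₀ hn0]
  have hse : e * star e = 1 := by
    rw [Quaternion.self_mul_star, Quaternion.normSq_eq_norm_mul_self, hen]
    simp
  set W : ℍ[ℝ] := killing a b e with hW
  have hkp : killing a b (proj a b h) = tw (-(a * Real.log ‖h‖)) (-(b * Real.log ‖h‖)) W := by
    rw [hW, tw_killing]; rfl
  have heW : inner ℝ e W = (0 : ℝ) := inner_killing_self e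
  have hmul : ∀ x y : ℍ[ℝ], inner ℝ (e * x) (e * y) = (inner ℝ x y : ℝ) := by
    intro x y
    have h1 : ∀ x : ℍ[ℝ], ‖e * x‖ = ‖x‖ := fun x => by rw [norm_mul, hen, one_mul]
    have h2 := real_inner_eq_norm_add_mul_self_sub_norm_mul_self_sub_norm_mul_self_div_two
      (e * x) (e * y)
    rw [h2, ← mul_add, h1, h1, h1,
      ← real_inner_eq_norm_add_mul_self_sub_norm_mul_self_sub_norm_mul_self_div_two]
  have hre : ∀ u : ℍ[ℝ], inner ℝ (e * u) e = u.re := by
    intro u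
    have h1 : e = e * 1 := (mul_one e).symm
    conv_lhs => rw [h1, mul_assoc, one_mul]
    rw [hmul, inner_def']
    simp
  refine ⟨1 + star e * W, ?_, ?_⟩
  · intro h0
    have h1 : e * (1 + star e * W) = e + W := by
      rw [mul_add, mul_one, ← mul_assoc, hse, one_mul]
    rw [h0, mul_zero] at h1
    have h2 : inner ℝ e (e + W) = (1 : ℝ) := by
      rw [inner_add_right, heW, real_inner_self_eq_norm_sq, hen]; norm_num
    rw [← h1, inner_zero_right] at h2
    exact zero_ne_one h2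
  · intro u
    have h1 : e * (1 + star e * W) = e + W := by
      rw [mul_add, mul_one, ← mul_assoc, hse, one_mul]
    have h2 : ‖1 + star e * W‖ ^ 2 = 1 + ‖W‖ ^ 2 := by
      have h3 : ‖1 + star e * W‖ = ‖e + W‖ := by
        rw [← h1, norm_mul, hen, one_mul]
      rw [h3, norm_add_sq_real, heW, hen]; ring
    have h4 : inner ℝ u (1 + star e * W) = u.re + inner ℝ (e * u) W := by
      rw [← hmul, h1, inner_add_right, hre]
    rw [S3.deriv_proj a b hh u, hkp, norm_tw, norm_tw, inner_tw, h2, h4, ← he, ← hW]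
    have hu : ‖e * u‖ = ‖u‖ := by rw [norm_mul, hen, one_mul]
    have hWe : inner ℝ W e = (0 : ℝ) := by rw [real_inner_comm]; exact heW
    have hs : inner ℝ W (e * u) = (inner ℝ (e * u) W : ℝ) := real_inner_comm _ _
    have hr : inner ℝ e (e * u) = u.re := by rw [real_inner_comm]; exact hre u
    have h5 : ‖e * u - u.re • e - u.re • W‖ ^ 2 = ‖u‖ ^ 2 - u.re ^ 2 +
        u.re ^ 2 * ‖W‖ ^ 2 - 2 * u.re * inner ℝ (e * u) W := by
      rw [← real_inner_self_eq_norm_sq (e * u - u.re • e - u.re • W)]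
      simp only [inner_sub_left, inner_sub_right, inner_smul_left, inner_smul_right, heW, hWe,
        hre, hr, hs, real_inner_self_eq_norm_sq, hu, hen]
      simp
      ring
    have h6 : inner ℝ (e * u - u.re • e - u.re • W) W =
        inner ℝ (e * u) W - u.re * ‖W‖ ^ 2 := by
      simp only [inner_sub_left, inner_smul_left, heW, real_inner_self_eq_norm_sq]
      simp
    rw [h5, h6]
    have hpos : (1 + ‖W‖ ^ 2) ≠ 0 := by positivity
    field_simp
    ring

end Helper99.BQ
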